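import Mathlib
import Pool.Agent.T9h59.SR.Spec3
import Pool.Agent.T9h85.SR.CotIndep

/-! Piece (P5) for helper59: the tangents are independent for odd `e`. -/

set_option autoImplicit false

namespace Pool.Agent.T9h75.SR

open Finset

open Pool.Agent.T9h59.SR

theorem prim_neg {e : ℕ} (he : Odd e) {ζ : ℂ} (h : IsPrimitiveRoot ζ (2 * e)) :
    IsPrimitiveRoot (-ζ) e := by
  have he0 : 0 < e := he.pos
  -- ζ ^ e = -1
  have h1 : ζ ^ e = -1 := by
    have h2 : (ζ ^ e) ^ 2 = 1 := by
      rw [← pow_mul, mul_comm e 2]; exact h.pow_eq_one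
    rcases eq_or_eq_neg_of_sq_eq_sq (ζ ^ e) 1 (by rw [h2, one_pow]) with h3 | h3
    · exfalso
      exact h.pow_ne_one_of_pos_of_lt (by omega) (by omega) h3
    · exact h3
  refine ⟨?_, ?_⟩
  · rw [he.neg_pow, h1, neg_neg]
  · intro l hl
    have h4 : ζ ^ (2 * l) = 1 := by
      have h5 : ((-ζ) ^ l) ^ 2 = 1 := by rw [hl, one_pow]
      rw [← pow_mul, mul_comm l 2, Even.neg_pow (even_two_mul l)] at h5
      exact h5
    have h6 := h.dvd_of_pow_eq_one _ h4
    exact Nat.dvd_of_mul_dvd_mul_left (by norm_num) h6

theorem p5 : StP5 := by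
  intro e he hodd l hl
  let l' : ℕ → ℂ := fun c => if 2 * c < e then l c else - l (e - c)
  have key := Pool.Agent.T9h85.SR.cot_indep (2 * e) (by omega) l' ?_
  · intro b hb
    rw [mem_B] at hb
    obtain ⟨⟨hb1, hb2⟩, hb3⟩ := hb
    obtain ⟨m, hm⟩ := hodd
    rcases Nat.even_or_odd b with hbe | hbo
    · obtain ⟨k, hk⟩ := hbe
      have h1 : e - b ∈ (Finset.Ico 1 ((2 * e + 1) / 2)).filter (fun b => Nat.Coprime b (2 * e)) := by
        rw [mem_filter, mem_Ico]
        refine ⟨⟨by omega, by omega⟩, ?_⟩
        apply Nat.Coprime.mul_right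
        · rw [Nat.coprime_two_right]
          exact ⟨m - k, by omega⟩
        · rw [Nat.coprime_comm]
          have h2 : Nat.Coprime e b := hb3.symm
          exact (Nat.coprime_self_sub_right (by omega)).mpr h2
      have h2 := key _ h1
      simp only [l'] at h2
      rw [if_neg (by omega)] at h2
      have h3 : e - (e - b) = b := by omega
      rw [h3] at h2
      exact neg_eq_zero.mp h2
    · have h1 : b ∈ (Finset.Ico 1 ((2 * e + 1) / 2)).filter (fun b => Nat.Coprime b (2 * e)) := by
        rw [mem_filter, mem_Ico]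
        refine ⟨⟨by omega, by omega⟩, ?_⟩
        apply Nat.Coprime.mul_right
        · rw [Nat.coprime_two_right]; exact hbo
        · exact hb3
      have h2 := key _ h1
      simp only [l'] at h2
      rw [if_pos (by omega)] at h2
      exact h2
  · intro η hη
    have hζ := prim_neg hodd hη
    have h0 := hl _ hζ
    have hηe : η ^ e = -1 := by
      have h2 : (-η) ^ e = 1 := hζ.pow_eq_one
      rw [hodd.neg_pow] at h2
      rw [← neg_eq_iff_eq_neg]; exact h2
    have hη0 : η ≠ 0 := hη.ne_zero (by omega)
    rw [← h0]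
    symm
    obtain ⟨m, hm⟩ := hodd
    refine Finset.sum_bij' (fun b _ => if Even b then e - b else b)
      (fun c _ => if 2 * c < e then c else e - c) ?_ ?_ ?_ ?_ ?_
    · intro b hb
      rw [mem_B] at hb
      obtain ⟨⟨hb1, hb2⟩, hb3⟩ := hb
      rw [mem_filter, mem_Ico]
      split_ifs with hbe
      · obtain ⟨k, hk⟩ := hbe
        refine ⟨⟨by omega, by omega⟩, ?_⟩
        apply Nat.Coprime.mul_right
        · rw [Nat.coprime_two_right]
          exact ⟨m - k, by omega⟩
        · rw [Nat.coprime_comm]
          exact (Nat.coprime_self_sub_right (by omega)).mpr hb3.symm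
      · refine ⟨⟨by omega, by omega⟩, ?_⟩
        apply Nat.Coprime.mul_right
        · rw [Nat.coprime_two_right]; exact Nat.not_even_iff_odd.mp hbe
        · exact hb3
    · intro c hc
      rw [mem_filter, mem_Ico] at hc
      obtain ⟨⟨hc1, hc2⟩, hc3⟩ := hc
      have hce : Nat.Coprime c e := Nat.Coprime.coprime_mul_left_right hc3
      rw [mem_B]
      split_ifs with h
      · exact ⟨⟨by omega, by omega⟩, hce⟩
      · refine ⟨⟨by omega, by omega⟩, ?_⟩
        rw [Nat.coprime_comm]
        exact (Nat.coprime_self_sub_right (by omega)).mpr hce.symm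
    · intro b hb
      rw [mem_B] at hb
      obtain ⟨⟨hb1, hb2⟩, hb3⟩ := hb
      split_ifs with h1 h2 <;> omega
    · intro c hc
      rw [mem_filter, mem_Ico] at hc
      obtain ⟨⟨hc1, hc2⟩, hc3⟩ := hc
      have hc4 : Odd c := by
        rw [← Nat.coprime_two_right]
        exact Nat.Coprime.coprime_mul_right_right hc3
      obtain ⟨k, hk⟩ := hc4
      by_cases h : 2 * c < e
      · rw [if_pos h, if_neg]
        rw [Nat.not_even_iff_odd]; exact ⟨k, hk⟩
      · rw [if_neg h, if_pos]
        · omega
        · exact ⟨m - k, by omega⟩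
    · intro b hb
      rw [mem_B] at hb
      obtain ⟨⟨hb1, hb2⟩, hb3⟩ := hb
      simp only [l']
      by_cases hbe : Even b
      · rw [if_pos hbe, if_neg (by omega)]
        have h3 : e - (e - b) = b := by omega
        rw [h3]
        have h4 : (-η) ^ b = η ^ b := hbe.neg_pow η
        rw [h4]
        have h5 : η ^ (e - b) = - (η ^ b)⁻¹ := by
          have h6 : η ^ (e - b) * η ^ b = -1 := by
            rw [← pow_add, Nat.sub_add_cancel (by omega), hηe]
          have h7 : η ^ b ≠ 0 := pow_ne_zero _ hη0
          field_simp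
          exact h6
        rw [h5]
        have h7 : η ^ b ≠ 0 := pow_ne_zero _ hη0
        have h8 : η ^ b + 1 ≠ 0 := by
          intro h9
          have h10 : η ^ (2 * b) = 1 := by
            rw [mul_comm, pow_mul, eq_neg_of_add_eq_zero_left h9]; norm_num
          have h11 := hη.dvd_of_pow_eq_one _ h10
          have h12 := Nat.le_of_dvd (by omega) h11
          omega
        have h9 : -(η ^ b)⁻¹ - 1 ≠ 0 := by
          intro h10
          apply h8
          field_simp at h10
          linear_combination -h10
        unfold tn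
        rw [neg_mul]
        rw [← mul_neg, ← neg_div]
        congr 1
        rw [div_eq_div_iff h8 h9]
        field_simp
        ring
      · rw [if_neg hbe, if_pos (by omega)]
        have hbo := Nat.not_even_iff_odd.mp hbe
        have h4 : (-η) ^ b = - η ^ b := hbo.neg_pow η
        rw [h4]
        unfold tn
        congr 1
        rw [← neg_div_neg_eq]
        congr 1 <;> ring

end Pool.Agent.T9h75.SR
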