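import Mathlib
import Pool.Agent.T9h59.SR.Spec3

/-! Piece (P6) for helper59: polynomials of degree `< e` over `F_p` which vanish at all primitive
`e`-th roots of unity are determined by the coefficients from `φ(e)` on. -/

set_option autoImplicit false

namespace Pool.Agent.T9h75.SR

open Finset Polynomial

open Pool.Agent.T9h59.SR

theorem exists_prim (p : ℕ) [Fact p.Prime] (e : ℕ) (he : 1 ≤ e) (hep : e < p) :
    ∃ ζ : AlgebraicClosure (ZMod p), IsPrimitiveRoot ζ e := by
  have : NeZero ((e : ℕ) : ZMod p) := by
    refine ⟨fun h => ?_⟩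
    rw [ZMod.natCast_eq_zero_iff] at h
    exact absurd (Nat.le_of_dvd (by omega) h) (by omega)
  have : NeZero ((e : ℕ) : AlgebraicClosure (ZMod p)) := by
    refine ⟨fun h => ?_⟩
    have h1 : algebraMap (ZMod p) (AlgebraicClosure (ZMod p)) (e : ZMod p) = 0 := by
      rw [map_natCast]; exact h
    rw [map_eq_zero] at h1
    exact NeZero.ne _ h1
  have : HasEnoughRootsOfUnity (AlgebraicClosure (ZMod p)) e := inferInstance
  exact HasEnoughRootsOfUnity.exists_primitiveRoot (AlgebraicClosure (ZMod p)) e

theorem p6 : StP6 := by
  intro p _ e he hep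
  classical
  obtain ⟨ζ, hζ⟩ := exists_prim p e he hep
  set K := AlgebraicClosure (ZMod p) with hK
  set W := {f : Fin e → ZMod p // ∀ ζ : AlgebraicClosure (ZMod p), IsPrimitiveRoot ζ e →
      ev (fun j => algebraMap (ZMod p) (AlgebraicClosure (ZMod p)) (f j)) ζ = 0} with hW
  have hφ : Nat.totient e ≤ e := Nat.totient_le e
  let r : W → (Fin (e - Nat.totient e) → ZMod p) := fun f i =>
    f.1 ⟨Nat.totient e + (i : ℕ), by have := i.2; omega⟩
  have hinj : Function.Injective r := by
    intro f g hfg
    apply Subtype.ext
    funext j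
    by_contra hne
    -- the difference polynomial
    let F : K[X] := ∑ j : Fin e, Polynomial.C (algebraMap (ZMod p) K (f.1 j - g.1 j)) * X ^ (j : ℕ)
    have hcoeff : ∀ j : Fin e, F.coeff (j : ℕ) = algebraMap (ZMod p) K (f.1 j - g.1 j) := by
      intro j
      simp only [F, finsetSum_coeff, coeff_C_mul, coeff_X_pow]
      rw [Finset.sum_eq_single j]
      · simp
      · intro b _ hb
        rw [if_neg (fun h => hb (Fin.ext h.symm)), mul_zero]
      · simp
    have hF0 : F ≠ 0 := by
      intro h
      have h1 := hcoeff j
      rw [h, coeff_zero] at h1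
      have h2 := (map_eq_zero _).mp h1.symm
      exact hne (sub_eq_zero.mp h2)
    have hdeg : F.natDegree < Nat.totient e := by
      have htp : 0 < Nat.totient e := Nat.totient_pos.mpr he
      rw [Nat.lt_iff_le_pred htp]
      rw [natDegree_le_iff_coeff_eq_zero]
      intro N hN
      by_cases hNe : N < e
      · have h1 := hcoeff ⟨N, hNe⟩
        rw [show ((⟨N, hNe⟩ : Fin e) : ℕ) = N from rfl] at h1
        rw [h1]
        have h2 : Nat.totient e ≤ N := by omega
        have h3 := congrFun hfg ⟨N - Nat.totient e, by omega⟩
        simp only [r] at h3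
        have h4 : (⟨Nat.totient e + (N - Nat.totient e), by omega⟩ : Fin e) = ⟨N, hNe⟩ := by
          apply Fin.ext
          simp only
          omega
        rw [h4] at h3
        rw [h3, sub_self, map_zero]
      · simp only [F, finsetSum_coeff, coeff_C_mul, coeff_X_pow]
        apply Finset.sum_eq_zero
        intro b _
        rw [if_neg (by have := b.2; omega), mul_zero]
    have hroots : (primitiveRoots e K) ⊆ F.roots.toFinset := by
      intro z hz
      rw [mem_primitiveRoots (by omega)] at hz
      rw [Multiset.mem_toFinset, mem_roots hF0, IsRoot.def]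
      have h1 := f.2 z hz
      have h2 := g.2 z hz
      unfold ev at h1 h2
      simp only [F, eval_finsetSum, eval_sub, eval_mul, eval_C, eval_pow, eval_X, map_sub, sub_mul]
      rw [Finset.sum_sub_distrib, h1, h2, sub_self]
    have hcard := Finset.card_le_card hroots
    rw [hζ.card_primitiveRoots] at hcard
    have h5 := Multiset.toFinset_card_le F.roots
    have h6 := card_roots' F
    omega
  calc Nat.card W ≤ Nat.card (Fin (e - Nat.totient e) → ZMod p) :=
        Nat.card_le_card_of_injective r hinj
    _ = p ^ (e - Nat.totient e) := by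
        rw [Nat.card_eq_fintype_card, Fintype.card_fun, ZMod.card, Fintype.card_fin]

end Pool.Agent.T9h75.SR
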